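import Mathlib

namespace Pool.Agent.Results.MP_59b615_al.No

open Filter Topology

/-- `Q^*`: positive integers all of whose prime factors lie in `Q`. -/
def Qstar (Q : Set ℕ) : Set ℕ := {m | 0 < m ∧ ∀ p, p.Prime → p ∣ m → p ∈ Q}

/-- The topology `τ_Q` on `ℤ`, generated by the cosets `a + mℤ`, `m ∈ Q^*`. -/
def tau (Q : Set ℕ) : TopologicalSpace ℤ :=
  TopologicalSpace.generateFrom {U | ∃ a : ℤ, ∃ m ∈ Qstar Q, U = {x | (m : ℤ) ∣ x - a}}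

/-- Uniformly bounded families of the profinite coarse structure `E_Q`. -/
def UBQ (Q : Set ℕ) (F : Set (Set ℤ)) : Prop :=
  ∃ K : Set ℤ, @IsCompact ℤ (tau Q) K ∧ ∀ A ∈ F, ∃ k : ℤ, A ⊆ (fun x => k + x) '' K

/-- The word (extended) metric `d_S`. -/
noncomputable def dS (S : Set ℤ) (n m : ℤ) : ℕ∞ :=
  sInf {r | ∃ l : List ℤ, (∀ x ∈ l, x ∈ S ∨ -x ∈ S) ∧ l.sum = n - m ∧ r = l.length}

/-- Uniformly bounded families of the word-metric coarse structure `E_Cay(S)`. -/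
def UBS (S : Set ℤ) (F : Set (Set ℤ)) : Prop :=
  ∃ R : ℕ, ∀ A ∈ F, ∀ x ∈ A, ∀ y ∈ A, dS S x y ≤ R

/-- `f` sends uniformly bounded families to uniformly bounded families. -/
def Controlled (U U' : Set (Set ℤ) → Prop) (f : ℤ → ℤ) : Prop :=
  ∀ F, U F → U' ((fun A => f '' A) '' F)

/-- `f` and `f'` are close. -/
def Close (U : Set (Set ℤ) → Prop) (f f' : ℤ → ℤ) : Prop :=
  U {A | ∃ x, A = {f x, f' x}}

/-- `f` is a coarse isomorphism of coarse groups `(ℤ, U) → (ℤ, U')`. -/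
def CoarseIso (U U' : Set (Set ℤ) → Prop) (f : ℤ → ℤ) : Prop :=
  Controlled U U' f ∧ U' {A | ∃ a b, A = {f (a + b), f a + f b}} ∧
    ∃ g, Controlled U' U g ∧ Close U (g ∘ f) id ∧ Close U' (f ∘ g) id

lemma open_per (Q : Set ℕ) {m : ℕ} (hm : m ∈ Qstar Q) {U : Set ℤ}
    (h : ∀ x ∈ U, ∀ y, (m : ℤ) ∣ y - x → y ∈ U) : IsOpen[tau Q] U := by
  letI := tau Q
  rw [isOpen_iff_forall_mem_open]
  intro x hx
  refine ⟨{y | (m : ℤ) ∣ y - x}, fun y hy => h x hx y hy, ?_, by simp⟩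
  exact TopologicalSpace.isOpen_generateFrom_of_mem ⟨x, m, hm, rfl⟩

lemma closed_per (Q : Set ℕ) {m : ℕ} (hm : m ∈ Qstar Q) {U : Set ℤ}
    (h : ∀ x ∈ U, ∀ y, (m : ℤ) ∣ y - x → y ∈ U) : IsClosed[tau Q] U := by
  letI := tau Q
  rw [← isOpen_compl_iff]
  refine open_per Q hm fun x hx y hy hyU => hx (h y hyU x ?_)
  have : x - y = -(y - x) := by ring
  rw [this]; exact hy.neg_right

lemma cont_sub (Q : Set ℕ) :
    @Continuous (ℤ × ℤ) ℤ (@instTopologicalSpaceProd ℤ ℤ (tau Q) (tau Q)) (tau Q)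
      (fun p => p.1 - p.2) := by
  letI := tau Q
  refine continuous_generateFrom_iff.2 ?_
  rintro U ⟨a, m, hm, rfl⟩
  rw [isOpen_iff_forall_mem_open]
  rintro ⟨x, y⟩ hxy
  refine ⟨{z | (m : ℤ) ∣ z - x} ×ˢ {z | (m : ℤ) ∣ z - y}, ?_, ?_, by simp⟩
  · rintro ⟨u, v⟩ ⟨hu, hv⟩
    have h1 : (m : ℤ) ∣ x - y - a := hxy
    have h2 : (m : ℤ) ∣ u - x := hu
    have h3 : (m : ℤ) ∣ v - y := hv
    show (m : ℤ) ∣ u - v - a
    have : u - v - a = (x - y - a) + (u - x) - (v - y) := by ring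
    rw [this]; exact (h1.add h2).sub h3
  · exact IsOpen.prod (TopologicalSpace.isOpen_generateFrom_of_mem ⟨x, m, hm, rfl⟩)
      (TopologicalSpace.isOpen_generateFrom_of_mem ⟨y, m, hm, rfl⟩)

lemma comp_sub (Q : Set ℕ) {K L : Set ℤ} (hK : @IsCompact ℤ (tau Q) K)
    (hL : @IsCompact ℤ (tau Q) L) :
    @IsCompact ℤ (tau Q) ((fun p : ℤ × ℤ => p.1 - p.2) '' (K ×ˢ L)) := by
  letI := tau Q
  exact (hK.prod hL).image (cont_sub Q)

lemma mul_mem {Q : Set ℕ} {a b : ℕ} (ha : a ∈ Qstar Q) (hb : b ∈ Qstar Q) :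
    a * b ∈ Qstar Q :=
  ⟨Nat.mul_pos ha.1 hb.1, fun p hp h => ((Nat.Prime.dvd_mul hp).1 h).elim (ha.2 p hp) (hb.2 p hp)⟩

lemma one_mem (Q : Set ℕ) : 1 ∈ Qstar Q :=
  ⟨one_pos, fun p hp h => absurd (Nat.dvd_one.1 h) hp.ne_one⟩

lemma pow_mem {Q : Set ℕ} {a : ℕ} (ha : a ∈ Qstar Q) (i : ℕ) : a ^ i ∈ Qstar Q := by
  induction i with
  | zero => simpa using one_mem Q
  | succ i ih => rw [pow_succ]; exact mul_mem ih ha

lemma not_sub {Q : Set ℕ} {p : ℕ} (hp : p.Prime) (hpQ : p ∈ Q) {m : ℕ} (hm : m ∈ Qstar Q)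
    {K : Set ℤ} (hK : @IsCompact ℤ (tau Q) K) : ∃ x : ℤ, (m : ℤ) ∣ x ∧ x ∉ K := by
  letI := tau Q
  by_contra hc
  push Not at hc
  have hpm : p ∈ Qstar Q :=
    ⟨hp.pos, fun q hq h => by rwa [(Nat.prime_dvd_prime_iff_eq hq hp).1 h]⟩
  set C : ℕ → Set ℤ := fun i => {n | (m : ℤ) ∣ n ∧ (p : ℤ) ^ i ∣ (1 - (p : ℤ) ^ 2) * n - m}
    with hC
  have hcl : ∀ i, IsClosed (C i) := by
    intro i
    refine closed_per Q (mul_mem hm (pow_mem hpm i)) ?_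
    rintro x ⟨h1, h2⟩ y hy
    push_cast at hy
    refine ⟨?_, ?_⟩
    · have : y = x + (y - x) := by ring
      rw [this]; exact h1.add ((Dvd.intro _ rfl).trans hy)
    · have : (1 - (p : ℤ) ^ 2) * y - m = ((1 - (p : ℤ) ^ 2) * x - m) + (1 - (p : ℤ) ^ 2) * (y - x) := by
        ring
      rw [this]; exact h2.add (((Dvd.intro_left _ rfl).trans hy).mul_left _)
  have hne : ∀ i, (C i).Nonempty := by
    intro i
    refine ⟨m * ∑ j ∈ Finset.range i, ((p : ℤ) ^ 2) ^ j, Dvd.intro _ rfl, ?_⟩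
    have h := mul_neg_geom_sum ((p : ℤ) ^ 2) i
    have : (1 - (p : ℤ) ^ 2) * (m * ∑ j ∈ Finset.range i, ((p : ℤ) ^ 2) ^ j) - m
        = (p : ℤ) ^ i * (-(m * (p : ℤ) ^ i)) := by
      have e : ((p : ℤ) ^ 2) ^ i = (p : ℤ) ^ i * (p : ℤ) ^ i := by ring
      rw [e] at h
      linear_combination (m : ℤ) * h
    rw [this]; exact Dvd.intro _ rfl
  have hdec : ∀ i, C (i + 1) ⊆ C i := by
    rintro i x ⟨h1, h2⟩
    exact ⟨h1, (pow_dvd_pow _ (Nat.le_succ i)).trans h2⟩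
  have h0 : IsCompact (C 0) := hK.of_isClosed_subset (hcl 0) fun x hx => hc x hx.1
  obtain ⟨x, hx⟩ := IsCompact.nonempty_iInter_of_sequence_nonempty_isCompact_isClosed C hdec hne h0 hcl
  rw [Set.mem_iInter] at hx
  obtain ⟨y, rfl⟩ := (hx 0).1
  have hz : (1 - (p : ℤ) ^ 2) * (m * y) - m = 0 := by
    set z := (1 - (p : ℤ) ^ 2) * (m * y) - m with hz
    have h1 : (p : ℤ) ^ z.natAbs ∣ z := (hx z.natAbs).2
    refine Int.eq_zero_of_dvd_of_natAbs_lt_natAbs h1 ?_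
    rw [Int.natAbs_pow, Int.natAbs_natCast]
    exact Nat.lt_pow_self hp.one_lt
  have hm0 : (m : ℤ) ≠ 0 := by exact_mod_cast hm.1.ne'
  have h1 : (1 - (p : ℤ) ^ 2) * y = 1 := by
    apply mul_left_cancel₀ hm0
    linear_combination hz
  have h2 : (2 : ℤ) ≤ p := by exact_mod_cast hp.two_le
  rcases Int.eq_one_or_neg_one_of_mul_eq_one h1 with h | h <;> nlinarith

lemma dS_self (S : Set ℤ) (x : ℤ) : dS S x x = 0 := by
  refine le_antisymm (sInf_le ⟨[], by simp, by simp, by simp⟩) (by simp)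

lemma dS_symm (S : Set ℤ) (x y : ℤ) : dS S y x ≤ dS S x y := by
  refine le_sInf ?_
  rintro r ⟨l, h1, h2, rfl⟩
  refine sInf_le ⟨l.map (fun z => -z), ?_, ?_, by simp⟩
  · intro z hz
    obtain ⟨w, hw, rfl⟩ := List.mem_map.1 hz
    simpa [or_comm] using h1 w hw
  · have : ∀ l : List ℤ, (l.map (fun z => -z)).sum = -l.sum := by
      intro l
      induction l with
      | nil => simp
      | cons a l ih => simp only [List.map_cons, List.sum_cons, ih]; ring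
    rw [this, h2]; ring

lemma key {Q : Set ℕ} (hne : Q.Nonempty) (hQ : ∀ p ∈ Q, p.Prime) (S : Set ℤ) (f g : ℤ → ℤ)
    (hf : Controlled (UBQ Q) (UBS S) f) (hg : Controlled (UBS S) (UBQ Q) g)
    (hc : Close (UBQ Q) (g ∘ f) id) : False := by
  classical
  letI := tau Q
  obtain ⟨p, hpQ⟩ := hne
  obtain ⟨K0, hK0, h0⟩ := hc
  have hR : ∀ R : ℕ, ∃ K : Set ℤ, IsCompact K ∧ ∀ y y', dS S y y' ≤ R →
      ∃ a ∈ K, ∃ b ∈ K, g y - g y' = a - b := by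
    intro R
    obtain ⟨K, hK, h⟩ := hg {A | ∃ y y', dS S y y' ≤ R ∧ A = {y, y'}} ⟨R, by
      rintro A ⟨y, y', hy, rfl⟩ u hu v hv
      rcases hu with rfl | rfl <;> rcases hv with rfl | rfl
      · simp [dS_self]
      · exact hy
      · exact (dS_symm _ _ _).trans hy
      · simp [dS_self]⟩
    refine ⟨K, hK, fun y y' hy => ?_⟩
    obtain ⟨k, hk⟩ := h _ ⟨_, ⟨y, y', hy, rfl⟩, rfl⟩
    obtain ⟨a, ha, ea⟩ := hk ⟨y, by simp, rfl⟩
    obtain ⟨b, hb, eb⟩ := hk ⟨y', by simp, rfl⟩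
    refine ⟨a, ha, b, hb, ?_⟩
    beta_reduce at ea eb
    linarith
  choose K hK hKR using hR
  have h0' : ∀ x, ∃ a ∈ K0, ∃ b ∈ K0, g (f x) - x = a - b := by
    intro x
    obtain ⟨k, hk⟩ := h0 _ ⟨x, rfl⟩
    obtain ⟨a, ha, ea⟩ := hk (show g (f x) ∈ _ by simp)
    obtain ⟨b, hb, eb⟩ := hk (show x ∈ _ by simp)
    refine ⟨a, ha, b, hb, ?_⟩
    beta_reduce at ea eb
    linarith
  set D0 := (fun p : ℤ × ℤ => p.1 - p.2) '' (K0 ×ˢ K0) with hD0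
  have cD0 : IsCompact D0 := comp_sub Q hK0 hK0
  set L : ℕ → Set ℤ := fun R => (fun p : ℤ × ℤ => p.1 - p.2) ''
    (((fun p : ℤ × ℤ => p.1 - p.2) '' (K R ×ˢ K R)) ×ˢ
      ((fun p : ℤ × ℤ => p.1 - p.2) '' (D0 ×ˢ D0))) with hL
  have cL : ∀ R, IsCompact (L R) := fun R =>
    comp_sub Q (comp_sub Q (hK R) (hK R)) (comp_sub Q cD0 cD0)
  have hLx : ∀ R : ℕ, ∀ x, dS S (f x) (f 0) ≤ R → x ∈ L R := by
    intro R x hx
    obtain ⟨a, ha, b, hb, e1⟩ := hKR R _ _ hx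
    obtain ⟨c, hc, d, hd, e2⟩ := h0' x
    obtain ⟨c', hc', d', hd', e3⟩ := h0' 0
    refine ⟨(a - b, (c - d) - (c' - d')), ⟨⟨(a, b), ⟨ha, hb⟩, rfl⟩,
      ⟨(c - d, c' - d'), ⟨⟨(c, d), ⟨hc, hd⟩, rfl⟩, ⟨(c', d'), ⟨hc', hd'⟩, rfl⟩⟩, rfl⟩⟩, ?_⟩
    beta_reduce
    linarith
  set mm : ℕ → ℕ := fun n => ∏ M ∈ (Finset.range (n + 1)).filter (fun M => M ∈ Qstar Q), M
    with hmm
  have hmmQ : ∀ n, mm n ∈ Qstar Q := by
    intro n
    refine Finset.prod_induction _ (fun a => a ∈ Qstar Q) (fun a b => mul_mem) (one_mem Q) ?_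
    intro a ha
    exact (Finset.mem_filter.1 ha).2
  have hx : ∀ n, ∃ x : ℤ, (mm n : ℤ) ∣ x ∧ x ∉ L n := fun n =>
    not_sub (hQ p hpQ) hpQ (hmmQ n) (cL n)
  choose x hx1 hx2 using hx
  have ht : Tendsto x atTop (𝓝 0) := by
    refine TopologicalSpace.tendsto_nhds_generateFrom_iff.2 ?_
    rintro s ⟨a, m, hm, rfl⟩ h0s
    have h0s' : (m : ℤ) ∣ 0 - a := h0s
    filter_upwards [eventually_ge_atTop m] with n hn
    have h1 : m ∣ mm n :=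
      Finset.dvd_prod_of_mem _ (Finset.mem_filter.2 ⟨Finset.mem_range.2 (by omega), hm⟩)
    have h2 : (m : ℤ) ∣ x n := (Int.natCast_dvd_natCast.2 h1).trans (hx1 n)
    show (m : ℤ) ∣ x n - a
    have : x n - a = x n + (0 - a) := by ring
    rw [this]; exact h2.add h0s'
  obtain ⟨R, hRR⟩ := hf {insert 0 (Set.range x)} ⟨_, ht.isCompact_insert_range, by
    rintro A rfl
    exact ⟨0, fun y hy => ⟨y, hy, by simp⟩⟩⟩
  refine hx2 R (hLx R _ (hRR _ ⟨_, rfl, rfl⟩ _ ⟨x R, by simp, rfl⟩ _ ⟨0, by simp, rfl⟩))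

theorem result (Q : Set ℕ) (hne : Q.Nonempty) (hQ : ∀ p ∈ Q, p.Prime) (S : Set ℤ) :
    (¬ ∃ f, CoarseIso (UBQ Q) (UBS S) f) ∧ (¬ ∃ f, CoarseIso (UBS S) (UBQ Q) f) := by
  refine ⟨?_, ?_⟩
  · rintro ⟨f, hf, -, g, hg, h1, -⟩
    exact key hne hQ S f g hf hg h1
  · rintro ⟨f, hf, -, g, hg, -, h2⟩
    exact key hne hQ S g f hg hf h2

end Pool.Agent.Results.MP_59b615_al.No
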